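import Mathlib

/-!
Moments of order at most four of a finite sum of independent bounded centred random variables.
-/

open MeasureTheory ProbabilityTheory

namespace GP.M4

variable {Ω : Type*} [MeasurableSpace Ω] {ι : Type*}

/-- A bounded measurable function is integrable for a probability measure. -/
theorem integ (μ : Measure Ω) [IsProbabilityMeasure μ] {f : Ω → ℝ} (hf : Measurable f)
    (C : ℝ) (hC : ∀ x, |f x| ≤ C) : Integrable f μ :=
  Integrable.of_bound hf.aestronglyMeasurable C (Filter.Eventually.of_forall hC)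

omit [MeasurableSpace Ω] in
/-- Powers of a bounded function are bounded. -/
theorem pow_bd {f : Ω → ℝ} (C : ℝ) (hC : ∀ x, |f x| ≤ C) (k : ℕ) (x : Ω) :
    |f x ^ k| ≤ C ^ k := by
  rw [abs_pow]
  exact pow_le_pow_left₀ (abs_nonneg _) (hC x) k

/-- The expectation of a product of powers of two independent bounded functions. -/
theorem mulpow (μ : Measure Ω) [IsProbabilityMeasure μ] {Z Y : Ω → ℝ}
    (h : IndepFun Z Y μ) (hZ : Measurable Z) (hY : Measurable Y) (j k : ℕ) :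
    ∫ x, Z x ^ j * Y x ^ k ∂μ = (∫ x, Z x ^ j ∂μ) * ∫ x, Y x ^ k ∂μ := by
  have h2 : IndepFun (fun x => Z x ^ j) (fun x => Y x ^ k) μ :=
    h.comp (φ := fun t : ℝ => t ^ j) (ψ := fun t : ℝ => t ^ k)
      (measurable_id.pow_const j) (measurable_id.pow_const k)
  exact h2.integral_fun_mul_eq_mul_integral (hZ.pow_const j).aestronglyMeasurable
    (hY.pow_const k).aestronglyMeasurable

/-- The products of powers are integrable. -/
theorem intprod (μ : Measure Ω) [IsProbabilityMeasure μ] {Z Y : Ω → ℝ}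
    (hZ : Measurable Z) (hY : Measurable Y) (A B : ℝ) (hA : ∀ x, |Z x| ≤ A)
    (hB : ∀ x, |Y x| ≤ B) (j k : ℕ) : Integrable (fun x => Z x ^ j * Y x ^ k) μ := by
  refine integ μ ((hZ.pow_const j).mul (hY.pow_const k)) (A ^ j * B ^ k) fun x => ?_
  rw [abs_mul]
  exact mul_le_mul (pow_bd A hA j x) (pow_bd B hB k x) (abs_nonneg _)
    (pow_nonneg ((abs_nonneg _).trans (hA x)) _)

/-- The first four moments of a sum of independent bounded centred functions. -/
theorem mom4 (μ : Measure Ω) [IsProbabilityMeasure μ] (Y : ι → Ω → ℝ) (s : Finset ι)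
    (hI : iIndepFun Y μ) (hm : ∀ i, Measurable (Y i)) (hb : ∀ i x, |Y i x| ≤ 2)
    (v w : ι → ℝ) (h1 : ∀ i ∈ s, ∫ x, Y i x ∂μ = 0) (h2 : ∀ i ∈ s, ∫ x, (Y i x) ^ 2 ∂μ = v i)
    (h3 : ∀ i ∈ s, |∫ x, (Y i x) ^ 3 ∂μ| ≤ w i) (h4 : ∀ i ∈ s, ∫ x, (Y i x) ^ 4 ∂μ ≤ w i) :
    (∫ x, (∑ i ∈ s, Y i x) ∂μ = 0) ∧ (∫ x, (∑ i ∈ s, Y i x) ^ 2 ∂μ = ∑ i ∈ s, v i) ∧
      (|∫ x, (∑ i ∈ s, Y i x) ^ 3 ∂μ| ≤ ∑ i ∈ s, w i) ∧
      (∫ x, (∑ i ∈ s, Y i x) ^ 4 ∂μ ≤ 3 * (∑ i ∈ s, v i) ^ 2 + ∑ i ∈ s, w i) := by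
  classical
  induction s using Finset.induction_on with
  | empty => simp
  | insert a s ha ih =>
    obtain ⟨i1, i2, i3, i4⟩ := ih (fun i hi => h1 i (Finset.mem_insert_of_mem hi))
      (fun i hi => h2 i (Finset.mem_insert_of_mem hi))
      (fun i hi => h3 i (Finset.mem_insert_of_mem hi))
      (fun i hi => h4 i (Finset.mem_insert_of_mem hi))
    have a1 := h1 a (Finset.mem_insert_self a s)
    have a2 := h2 a (Finset.mem_insert_self a s)
    have a3 := h3 a (Finset.mem_insert_self a s)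
    have a4 := h4 a (Finset.mem_insert_self a s)
    set Z : Ω → ℝ := fun x => ∑ i ∈ s, Y i x with hZd
    have hZm : Measurable Z := Finset.measurable_fun_sum s fun i _ => hm i
    have hind : IndepFun Z (Y a) μ := by
      have := hI.indepFun_finsetSum_of_notMem hm ha
      have e : (∑ j ∈ s, Y j) = Z := by
        funext x
        simp [hZd]
      rwa [e] at this
    have hZb : ∀ x, |Z x| ≤ ∑ _i ∈ s, (2 : ℝ) := fun x =>
      (Finset.abs_sum_le_sum_abs _ _).trans (Finset.sum_le_sum fun i _ => hb i x)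
    have hYm := hm a
    have hYb := hb a
    have I := fun j k => intprod μ hZm hYm _ 2 hZb hYb j k
    have P := fun j k => mulpow μ hind hZm hYm j k
    have A : ∀ {f g : Ω → ℝ}, Integrable f μ → Integrable g μ →
        Integrable (fun x => f x + g x) μ := fun hf hg => hf.add hg
    have e0 : ∀ x, (∑ i ∈ insert a s, Y i x) = Z x + Y a x := fun x => by
      rw [Finset.sum_insert ha, add_comm]
    simp only [e0, Finset.sum_insert ha]
    have j1 : ∫ x, Z x ∂μ = 0 := i1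
    have z0 : ∫ x, Z x ^ 0 ∂μ = 1 := by simp
    have y0 : ∫ x, Y a x ^ 0 ∂μ = 1 := by simp
    have z1 : ∫ x, Z x ^ 1 ∂μ = 0 := by simpa using j1
    have y1 : ∫ x, Y a x ^ 1 ∂μ = 0 := by simpa using a1
    have m1 : ∫ x, (Z x + Y a x) ∂μ = 0 := by
      have : (fun x => Z x + Y a x) = fun x => Z x ^ 1 * Y a x ^ 0 + Z x ^ 0 * Y a x ^ 1 := by
        funext x
        ring
      rw [this, integral_add (I 1 0) (I 0 1), P 1 0, P 0 1, z1, y1]
      ring
    have m2 : ∫ x, (Z x + Y a x) ^ 2 ∂μ = (∫ x, Z x ^ 2 ∂μ) + v a := by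
      have : (fun x => (Z x + Y a x) ^ 2) = fun x =>
          Z x ^ 2 * Y a x ^ 0 + 2 * (Z x ^ 1 * Y a x ^ 1) + Z x ^ 0 * Y a x ^ 2 := by
        funext x
        ring
      rw [this, integral_add (A (I 2 0) ((I 1 1).const_mul 2)) (I 0 2),
        integral_add (I 2 0) ((I 1 1).const_mul 2), integral_const_mul, P 2 0, P 1 1, P 0 2,
        z1, y1, z0, y0, a2]
      ring
    have m3 : ∫ x, (Z x + Y a x) ^ 3 ∂μ = (∫ x, Z x ^ 3 ∂μ) + ∫ x, Y a x ^ 3 ∂μ := by
      have : (fun x => (Z x + Y a x) ^ 3) = fun x =>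
          Z x ^ 3 * Y a x ^ 0 + 3 * (Z x ^ 2 * Y a x ^ 1) + 3 * (Z x ^ 1 * Y a x ^ 2)
            + Z x ^ 0 * Y a x ^ 3 := by
        funext x
        ring
      rw [this, integral_add (A (A (I 3 0) ((I 2 1).const_mul 3)) ((I 1 2).const_mul 3))
          (I 0 3),
        integral_add (A (I 3 0) ((I 2 1).const_mul 3)) ((I 1 2).const_mul 3),
        integral_add (I 3 0) ((I 2 1).const_mul 3), integral_const_mul, integral_const_mul,
        P 3 0, P 2 1, P 1 2, P 0 3, z1, y1, z0, y0]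
      ring
    have m4 : ∫ x, (Z x + Y a x) ^ 4 ∂μ = (∫ x, Z x ^ 4 ∂μ) + 6 * ((∫ x, Z x ^ 2 ∂μ) * v a)
        + ∫ x, Y a x ^ 4 ∂μ := by
      have : (fun x => (Z x + Y a x) ^ 4) = fun x =>
          Z x ^ 4 * Y a x ^ 0 + 4 * (Z x ^ 3 * Y a x ^ 1) + 6 * (Z x ^ 2 * Y a x ^ 2)
            + 4 * (Z x ^ 1 * Y a x ^ 3) + Z x ^ 0 * Y a x ^ 4 := by
        funext x
        ring
      rw [this, integral_add (A (A (A (I 4 0) ((I 3 1).const_mul 4)) ((I 2 2).const_mul 6))
          ((I 1 3).const_mul 4)) (I 0 4),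
        integral_add (A (A (I 4 0) ((I 3 1).const_mul 4)) ((I 2 2).const_mul 6))
          ((I 1 3).const_mul 4),
        integral_add (A (I 4 0) ((I 3 1).const_mul 4)) ((I 2 2).const_mul 6),
        integral_add (I 4 0) ((I 3 1).const_mul 4), integral_const_mul, integral_const_mul,
        integral_const_mul, P 4 0, P 3 1, P 2 2, P 1 3, P 0 4, z1, y1, z0, y0, a2]
      ring
    refine ⟨m1, ?_, ?_, ?_⟩
    · rw [m2, i2]
      ring
    · rw [m3]
      have := abs_add_le (∫ x, Z x ^ 3 ∂μ) (∫ x, Y a x ^ 3 ∂μ)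
      linarith
    · rw [m4, i2]
      nlinarith [sq_nonneg (v a)]

end GP.M4
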