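import Pool.Agent.Lib.MP_6bc78b_nt.GP.H62.Defs7

/-!
# SMOX: the smooth part away from the real axis
-/

set_option autoImplicit false

open Complex Filter Topology MeasureTheory ArithmeticFunction Set

namespace Pool.Agent.Lib.MP_6bc78b_nt.GP.G7

namespace H88

/-- differences of the smooth part -/
theorem smo_diff (A B : ℝ) (n : ℕ) : |smo A B (n + 1) - smo A B n| ≤
    if n = 0 then |B| else (Real.log (n + 1) + |A|) / n := by
  rcases Nat.eq_zero_or_pos n with rfl | hn
  · simp [smo]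
  · have hn0 : n ≠ 0 := by omega
    rw [if_neg hn0]
    unfold smo
    rw [if_neg (Nat.succ_ne_zero n), if_neg hn0]
    have hnR : (0 : ℝ) < n := by exact_mod_cast hn
    have h1 : (1 : ℝ) ≤ n := by exact_mod_cast hn
    set u := Real.log n with hu
    set v := Real.log ((n : ℝ) + 1) with hv
    have hcast : ((n + 1 : ℕ) : ℝ) = (n : ℝ) + 1 := by push_cast; ring
    rw [hcast, ← hv]
    have hu0 : 0 ≤ u := Real.log_nonneg h1
    have huv : u ≤ v := Real.log_le_log hnR (by linarith)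
    have hd : v - u ≤ 1 / n := by
      have h2 : v - u = Real.log (((n : ℝ) + 1) / n) := by
        rw [hv, hu, Real.log_div (by positivity) (by positivity)]
      rw [h2]
      have h3 := Real.log_le_sub_one_of_pos (show (0 : ℝ) < ((n : ℝ) + 1) / n by positivity)
      have h4 : ((n : ℝ) + 1) / n - 1 = 1 / n := by field_simp; ring
      rw [h4] at h3
      exact h3
    have h5 : v ^ 2 / 2 - A * v - B - (u ^ 2 / 2 - A * u - B) = (v - u) * ((v + u) / 2 - A) := by
      ring
    rw [h5, abs_mul, abs_of_nonneg (sub_nonneg.2 huv)]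
    have h6 : |(v + u) / 2 - A| ≤ v + |A| := by
      have h7 : |(v + u) / 2 - A| ≤ |(v + u) / 2| + |A| := abs_sub _ _
      have h8 : |(v + u) / 2| = (v + u) / 2 := abs_of_nonneg (by linarith)
      rw [h8] at h7
      linarith
    have h9 : 0 ≤ v + |A| := add_nonneg (hu0.trans huv) (abs_nonneg _)
    calc (v - u) * |(v + u) / 2 - A| ≤ (1 / n) * (v + |A|) :=
          mul_le_mul hd h6 (abs_nonneg _) (by positivity)
      _ = (v + |A|) / n := by ring

/-- growth of the smooth part -/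
theorem smo_le (A B : ℝ) (n : ℕ) : |smo A B n| ≤ (1 + |A| + |B|) * ((n : ℝ) + 1) ^ 2 := by
  unfold smo
  split_ifs with h
  · rw [abs_zero]
    positivity
  · have hn : 1 ≤ n := by omega
    have h1 : (1 : ℝ) ≤ n := by exact_mod_cast hn
    have h2 : 0 ≤ Real.log n := Real.log_nonneg h1
    have h3 : Real.log n ≤ n := (Real.log_le_sub_one_of_pos (by linarith)).trans (by linarith)
    have h4 : |Real.log n ^ 2 / 2 - A * Real.log n - B| ≤
        |Real.log n ^ 2 / 2| + |A * Real.log n| + |B| :=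
      (abs_sub _ _).trans (add_le_add_left (abs_sub _ _) _ |>.trans (by rfl))
    rw [abs_mul, abs_of_nonneg h2, abs_of_nonneg (by positivity : (0 : ℝ) ≤ Real.log n ^ 2 / 2)]
      at h4
    have h5 : Real.log n ^ 2 / 2 ≤ ((n : ℝ) + 1) ^ 2 := by nlinarith
    have h6 : |A| * Real.log n ≤ |A| * ((n : ℝ) + 1) ^ 2 :=
      mul_le_mul_of_nonneg_left (by nlinarith) (abs_nonneg _)
    have h7 : |B| ≤ |B| * ((n : ℝ) + 1) ^ 2 :=
      le_mul_of_one_le_right (abs_nonneg _) (by nlinarith)
    calc |Real.log n ^ 2 / 2 - A * Real.log n - B| ≤ _ := h4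
      _ ≤ ((n : ℝ) + 1) ^ 2 + |A| * ((n : ℝ) + 1) ^ 2 + |B| * ((n : ℝ) + 1) ^ 2 := by linarith
      _ = _ := by ring

/-- the majorant -/
noncomputable def maj (A B T r : ℝ) (n : ℕ) : ℝ :=
  (if n = 0 then |B| else 0) + (Real.log T + |A|) * (r ^ n / n) + 2 / T * r ^ n

theorem maj_hasSum (A B T r : ℝ) (hr0 : 0 ≤ r) (hr : r < 1) :
    HasSum (maj A B T r)
      (|B| + (Real.log T + |A|) * (-Real.log (1 - r)) + 2 / T * (1 - r)⁻¹) := by
  have h1 : HasSum (fun n : ℕ => if n = 0 then |B| else 0) |B| := hasSum_ite_eq 0 |B|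
  have h2 : HasSum (fun n : ℕ => r ^ n / (n : ℝ)) (-Real.log (1 - r)) := by
    have h3 := Real.hasSum_pow_div_log_of_abs_lt_one (by rwa [abs_of_nonneg hr0] : |r| < 1)
    rw [← hasSum_nat_add_iff' 1]
    simpa using h3
  have h4 : HasSum (fun n : ℕ => r ^ n) (1 - r)⁻¹ := hasSum_geometric_of_lt_one hr0 hr
  exact (h1.add (h2.mul_left _)).add (h4.mul_left _)

theorem le_maj (A B T r : ℝ) (hr0 : 0 ≤ r) (hr : r < 1) (hT : 1 ≤ T) (n : ℕ) :
    |smo A B (n + 1) - smo A B n| * r ^ (n + 1) ≤ maj A B T r n := by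
  have h1 := smo_diff A B n
  have hlT : 0 ≤ Real.log T := Real.log_nonneg hT
  have hT0 : 0 < T := by linarith
  unfold maj
  split_ifs at h1 ⊢ with h0
  · subst h0
    have h2 : |smo A B (0 + 1) - smo A B 0| * r ^ (0 + 1) ≤ |B| * 1 := by
      refine mul_le_mul h1 ?_ (pow_nonneg hr0 _) (abs_nonneg _)
      rw [zero_add, pow_one]
      exact hr.le
    have h3 : 0 ≤ (Real.log T + |A|) * (r ^ 0 / ((0 : ℕ) : ℝ)) + 2 / T * r ^ 0 := by
      have : (0 : ℝ) ≤ Real.log T + |A| := add_nonneg hlT (abs_nonneg _)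
      positivity
    linarith
  · have hn : 1 ≤ n := by omega
    have hnR : (1 : ℝ) ≤ n := by exact_mod_cast hn
    have hn0 : (0 : ℝ) < n := by linarith
    have h2 : Real.log ((n : ℝ) + 1) ≤ Real.log T + ((n : ℝ) + 1) / T := by
      have h3 := Real.log_le_sub_one_of_pos (show (0 : ℝ) < ((n : ℝ) + 1) / T by positivity)
      rw [Real.log_div (by positivity) hT0.ne'] at h3
      linarith
    have h4 : r ^ (n + 1) ≤ r ^ n := by
      rw [pow_succ]
      exact mul_le_of_le_one_right (pow_nonneg hr0 _) hr.le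
    have hrn : 0 ≤ r ^ n := pow_nonneg hr0 _
    have h5 : 0 ≤ Real.log ((n : ℝ) + 1) := Real.log_nonneg (by linarith)
    have h6 : (Real.log ((n : ℝ) + 1) + |A|) / n ≤
        (Real.log T + |A|) / n + 2 / T := by
      have h7 : ((n : ℝ) + 1) / T / n ≤ 2 / T := by
        rw [div_div, div_le_div_iff₀ (by positivity) hT0]
        nlinarith
      calc (Real.log ((n : ℝ) + 1) + |A|) / n
          ≤ (Real.log T + ((n : ℝ) + 1) / T + |A|) / n := by
            apply div_le_div_of_nonneg_right _ hn0.le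
            linarith
        _ = (Real.log T + |A|) / n + ((n : ℝ) + 1) / T / n := by ring
        _ ≤ _ := by linarith
    calc |smo A B (n + 1) - smo A B n| * r ^ (n + 1)
        ≤ (Real.log ((n : ℝ) + 1) + |A|) / n * r ^ n :=
          mul_le_mul h1 h4 (pow_nonneg hr0 _) (by positivity)
      _ ≤ ((Real.log T + |A|) / n + 2 / T) * r ^ n := mul_le_mul_of_nonneg_right h6 hrn
      _ = 0 + (Real.log T + |A|) * (r ^ n / n) + 2 / T * r ^ n := by ring

/-- bounds for `1 - e^{-x}` -/
theorem one_sub_inv {x : ℝ} (hx : 0 < x) : (1 - Real.exp (-x))⁻¹ ≤ 1 + 1 / x := by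
  have h1 : Real.exp (-x) ≤ 1 / (1 + x) := by
    rw [Real.exp_neg, ← one_div]
    apply one_div_le_one_div_of_le (by linarith)
    linarith [Real.add_one_le_exp x]
  have h2 : x / (1 + x) ≤ 1 - Real.exp (-x) := by
    have h3 : x / (1 + x) = 1 - 1 / (1 + x) := by field_simp; ring
    rw [h3]
    linarith
  have h4 : 0 < x / (1 + x) := by positivity
  calc (1 - Real.exp (-x))⁻¹ ≤ (x / (1 + x))⁻¹ := inv_anti₀ h4 h2
    _ = 1 + 1 / x := by
      field_simp
      ring

theorem im_le {z : ℂ} {b : ℝ} (hz : z.re ≤ b) (hy : |z.im| ≤ 1) :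
    Real.exp (-b) * (2 / Real.pi * |z.im|) ≤ ‖1 - Complex.exp (-z)‖ := by
  have h1 : |(1 - Complex.exp (-z)).im| = Real.exp (-z.re) * |Real.sin z.im| := by
    rw [Complex.sub_im, Complex.one_im, Complex.exp_im, Complex.neg_re, Complex.neg_im,
      Real.sin_neg, zero_sub, mul_neg, neg_neg, abs_mul, abs_of_pos (Real.exp_pos _)]
  have h2 : 2 / Real.pi * |z.im| ≤ |Real.sin z.im| := by
    have h3 : |Real.sin z.im| = |Real.sin (|z.im|)| := by
      rcases abs_cases z.im with h | h
      · rw [h.1]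
      · rw [h.1, Real.sin_neg, abs_neg]
    rw [h3]
    exact (Real.mul_le_sin (abs_nonneg _) (hy.trans (by linarith [Real.pi_gt_three]))).trans
      (le_abs_self _)
  calc Real.exp (-b) * (2 / Real.pi * |z.im|)
      ≤ Real.exp (-z.re) * |Real.sin z.im| :=
        mul_le_mul (Real.exp_le_exp.2 (by linarith)) h2
          (by have := Real.pi_pos; positivity) (Real.exp_pos _).le
    _ = |(1 - Complex.exp (-z)).im| := h1.symm
    _ ≤ _ := Complex.abs_im_le_norm _

/-- Abel summation -/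
theorem abel (A B : ℝ) {w : ℂ} (hw : ‖w‖ < 1) {M : ℝ} {g : ℕ → ℝ}
    (hg : ∀ n, |smo A B (n + 1) - smo A B n| * ‖w‖ ^ (n + 1) ≤ g n) (hs : HasSum g M) :
    ‖(1 - w) * ∑' n : ℕ, (smo A B n : ℂ) * w ^ n‖ ≤ M := by
  have hsum : Summable (fun n : ℕ => (smo A B n : ℂ) * w ^ n) := by
    have hr : ‖(‖w‖ : ℝ)‖ < 1 := by rwa [norm_norm]
    have h0 := summable_pow_mul_geometric_of_norm_lt_one 0 hr
    have h1 := summable_pow_mul_geometric_of_norm_lt_one 1 hr
    have h2 := summable_pow_mul_geometric_of_norm_lt_one 2 hr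
    refine Summable.of_norm_bounded
      (g := fun n : ℕ => (1 + |A| + |B|) * (((n : ℝ) + 1) ^ 2 * ‖w‖ ^ n)) ?_ ?_
    · refine Summable.mul_left _ ?_
      refine ((h2.add (h1.mul_left 2)).add h0).congr fun n => ?_
      ring
    · intro n
      rw [norm_mul, norm_pow, Complex.norm_real, Real.norm_eq_abs, ← mul_assoc]
      exact mul_le_mul_of_nonneg_right (smo_le A B n) (pow_nonneg (norm_nonneg _) _)
  have h1 : (1 - w) * ∑' n : ℕ, (smo A B n : ℂ) * w ^ n =
      ∑' n : ℕ, ((smo A B (n + 1) - smo A B n : ℝ) : ℂ) * w ^ (n + 1) := by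
    have h2 := hsum.tsum_eq_zero_add
    have h3 : (smo A B 0 : ℂ) * w ^ 0 = 0 := by simp [smo]
    rw [h3, zero_add] at h2
    have h4 : Summable (fun n : ℕ => (smo A B (n + 1) : ℂ) * w ^ (n + 1)) :=
      (summable_nat_add_iff 1).2 hsum
    have h5 : Summable (fun n : ℕ => w * ((smo A B n : ℂ) * w ^ n)) := hsum.mul_left w
    calc (1 - w) * ∑' n : ℕ, (smo A B n : ℂ) * w ^ n
        = (∑' n : ℕ, (smo A B n : ℂ) * w ^ n) - w * ∑' n : ℕ, (smo A B n : ℂ) * w ^ n := by ring
      _ = (∑' n : ℕ, (smo A B (n + 1) : ℂ) * w ^ (n + 1)) -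
            ∑' n : ℕ, w * ((smo A B n : ℂ) * w ^ n) := by rw [tsum_mul_left, ← h2]
      _ = ∑' n : ℕ, ((smo A B (n + 1) : ℂ) * w ^ (n + 1) - w * ((smo A B n : ℂ) * w ^ n)) :=
          (h4.tsum_sub h5).symm
      _ = _ := by
          refine tsum_congr fun n => ?_
          push_cast
          ring
  rw [h1]
  have h6 : ∀ n, ‖((smo A B (n + 1) - smo A B n : ℝ) : ℂ) * w ^ (n + 1)‖ ≤ g n := by
    intro n
    rw [norm_mul, norm_pow, Complex.norm_real, Real.norm_eq_abs]
    exact hg n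
  exact tsum_of_norm_bounded hs h6

end H88

open H88 in
/-- **SMOX** -/
theorem smox : SMOXStatement := by
  intro A B a b ha hab
  have hb : 0 < b := ha.trans hab
  set L1 : ℝ := Real.log (1 + 1 / a) with hL1
  have hL10 : 0 ≤ L1 := Real.log_nonneg (by
    have : 0 < 1 / a := by positivity
    linarith)
  set M0 : ℝ := |B| + (1 + |A|) * (1 + L1) + (2 + 2 / a) with hM0
  have hM00 : 0 < M0 := by positivity
  refine ⟨M0 * Real.exp b * (Real.pi / 2), 11, by have := Real.pi_pos; positivity, by norm_num, ?_⟩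
  intro T z hT hz1 hz2 hy0 hy1
  have hT0 : 0 < T := by linarith
  have hT1 : 1 ≤ T := by linarith
  have hl : 1 ≤ Real.log T := by
    rw [Real.le_log_iff_exp_le hT0]
    linarith [Real.exp_one_lt_d9]
  have hx : 0 < z.re := lt_of_lt_of_le (by positivity) hz1
  set w := Complex.exp (-z) with hw
  have hwn : ‖w‖ = Real.exp (-z.re) := by rw [hw, Complex.norm_exp, Complex.neg_re]
  have hr : ‖w‖ < 1 := by
    rw [hwn]
    rw [← Real.exp_zero]
    exact Real.exp_lt_exp.2 (by linarith)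
  have hES : ES (smo A B) z = ∑' n : ℕ, (smo A B n : ℂ) * w ^ n := by
    unfold ES
    refine tsum_congr fun n => ?_
    rw [hw, ← Complex.exp_nat_mul]
    congr 2
    ring
  have h1 := abel A B hr (fun n => le_maj A B T ‖w‖ (norm_nonneg _) hr hT1 n)
    (maj_hasSum A B T ‖w‖ (norm_nonneg _) hr)
  rw [← hES, norm_mul] at h1
  -- the sum of the majorant
  have hinv : (1 - ‖w‖)⁻¹ ≤ 1 + T / a := by
    rw [hwn]
    refine (one_sub_inv hx).trans ?_
    have h2 : 1 / z.re ≤ T / a := by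
      rw [div_le_div_iff₀ hx ha]
      have h3 := (div_le_iff₀ hT0).1 hz1
      linarith
    linarith
  have hpos : 0 < 1 - ‖w‖ := by linarith
  have hlog : -Real.log (1 - ‖w‖) ≤ Real.log T + L1 := by
    rw [← Real.log_inv, hL1, ← Real.log_mul hT0.ne' (by positivity)]
    refine Real.log_le_log (inv_pos.2 hpos) (hinv.trans ?_)
    have h3 : T * (1 + 1 / a) = T + T / a := by ring
    rw [h3]
    linarith
  have hM : |B| + (Real.log T + |A|) * (-Real.log (1 - ‖w‖)) + 2 / T * (1 - ‖w‖)⁻¹ ≤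
      M0 * Real.log T ^ 2 := by
    have hA : 0 ≤ |A| := abs_nonneg A
    have hB : 0 ≤ |B| := abs_nonneg B
    have hl2 : 1 ≤ Real.log T ^ 2 := by nlinarith
    have h2 : (Real.log T + |A|) * (-Real.log (1 - ‖w‖)) ≤
        (1 + |A|) * (1 + L1) * Real.log T ^ 2 := by
      calc (Real.log T + |A|) * (-Real.log (1 - ‖w‖))
          ≤ (Real.log T + |A|) * (Real.log T + L1) :=
            mul_le_mul_of_nonneg_left hlog (by positivity)
        _ ≤ ((1 + |A|) * Real.log T) * ((1 + L1) * Real.log T) := by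
            apply mul_le_mul
            · nlinarith
            · nlinarith
            · positivity
            · positivity
        _ = _ := by ring
    have h3 : 2 / T * (1 - ‖w‖)⁻¹ ≤ 2 + 2 / a := by
      calc 2 / T * (1 - ‖w‖)⁻¹ ≤ 2 / T * (1 + T / a) :=
            mul_le_mul_of_nonneg_left hinv (by positivity)
        _ = 2 / T + 2 / a := by field_simp
        _ ≤ _ := by
          have : 2 / T ≤ 2 := div_le_self (by norm_num) hT1
          linarith
    have h4 : |B| ≤ |B| * Real.log T ^ 2 := le_mul_of_one_le_right hB hl2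
    have h5 : 2 + 2 / a ≤ (2 + 2 / a) * Real.log T ^ 2 :=
      le_mul_of_one_le_right (by positivity) hl2
    rw [hM0]
    nlinarith
  have h6 := im_le (z := z) (b := b) (hz2.trans (div_le_self hb.le hT1)) hy1
  have h7 : Real.exp (-b) * (2 / Real.pi * |z.im|) * ‖ES (smo A B) z‖ ≤
      M0 * Real.log T ^ 2 :=
    (mul_le_mul_of_nonneg_right h6 (norm_nonneg _)).trans (h1.trans hM)
  have hpi := Real.pi_pos
  rw [le_div_iff₀ hy0]
  have h8 : ‖ES (smo A B) z‖ * |z.im| = (Real.exp b * (Real.pi / 2)) *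
      (Real.exp (-b) * (2 / Real.pi * |z.im|) * ‖ES (smo A B) z‖) := by
    have h9 : Real.exp b * Real.exp (-b) = 1 := by rw [← Real.exp_add, add_neg_cancel, Real.exp_zero]
    calc ‖ES (smo A B) z‖ * |z.im| = (Real.exp b * Real.exp (-b)) *
          ((Real.pi / 2) * (2 / Real.pi)) * (‖ES (smo A B) z‖ * |z.im|) := by
          rw [h9]
          field_simp
      _ = _ := by ring
  rw [h8]
  calc (Real.exp b * (Real.pi / 2)) *
      (Real.exp (-b) * (2 / Real.pi * |z.im|) * ‖ES (smo A B) z‖)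
      ≤ (Real.exp b * (Real.pi / 2)) * (M0 * Real.log T ^ 2) :=
        mul_le_mul_of_nonneg_left h7 (by positivity)
    _ = _ := by ring

end Pool.Agent.Lib.MP_6bc78b_nt.GP.G7
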